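import Pool.Agent.Q37.GU.Stm

/-!
# Project GU, job P5
-/

set_option autoImplicit false

namespace Pool.Agent.Q186.GU

/-- the kernel of the localisation at a prime -/
def kr {C : Type} [CommRing C] (q : Ideal C) [q.IsPrime] : Ideal C :=
  RingHom.ker (algebraMap C (Localization.AtPrime q))

theorem mem_kr {C : Type} [CommRing C] (q : Ideal C) [q.IsPrime] (x : C) :
    x ∈ kr q ↔ ∃ s ∉ q, s * x = 0 := by
  unfold kr
  rw [RingHom.mem_ker, IsLocalization.map_eq_zero_iff q.primeCompl]
  constructor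
  · rintro ⟨s, hs⟩
    exact ⟨s, s.2, hs⟩
  · rintro ⟨s, hs, h⟩
    exact ⟨⟨s, hs⟩, h⟩

theorem p5_core (C : Type) [CommRing C] [IsNoetherianRing C]
    (h4 : ∀ (q : Ideal C) [q.IsPrime], IsDomain (Localization.AtPrime q)) (ψ : C →+* ℂ) :
    ∃ e : C, e * e = e ∧ ψ e = 1 ∧ IsDomain (Localization.Away e) := by
  have hm₀ : (RingHom.ker ψ).IsPrime := RingHom.ker_isPrime ψ
  set m₀ := RingHom.ker ψ with hm₀d
  have hprime : ∀ (q : Ideal C) [q.IsPrime], (kr q).IsPrime := by
    intro q _
    have := h4 q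
    exact RingHom.ker_isPrime _
  have hle : ∀ (q : Ideal C) [q.IsPrime], kr q ≤ q := by
    intro q hq x hx
    obtain ⟨s, hs, h⟩ := (mem_kr q x).1 hx
    have h1 : s * x ∈ q := by rw [h]; exact q.zero_mem
    exact (hq.mem_or_mem h1).resolve_left hs
  set p := kr m₀ with hp
  have hpp : p.IsPrime := hprime m₀
  have hpm : p ≤ m₀ := hle m₀
  have hkey : ∀ (m : Ideal C) [m.IsPrime], p ≤ m → p ≤ kr m := by
    intro m hm hpm' x hx
    obtain ⟨t, ht, h⟩ := (mem_kr m₀ x).1 hx
    have h1 : t * x ∈ kr m := by rw [h]; exact (kr m).zero_mem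
    rcases (hprime m).mem_or_mem h1 with h2 | h2
    · exfalso
      obtain ⟨s, hs, h3⟩ := (mem_kr m t).1 h2
      have h4 : s * t ∈ p := by rw [h3]; exact p.zero_mem
      rcases hpp.mem_or_mem h4 with h5 | h5
      · exact hs (hpm' h5)
      · exact ht (hpm h5)
    · exact h2
  have hidem : IsIdempotentElem p := by
    refine le_antisymm Ideal.mul_le_right ?_
    intro x hx
    have htop : ((p * p).colon {x} : Ideal C) = ⊤ := by
      by_contra hne
      obtain ⟨m, hm, hle'⟩ := Ideal.exists_le_maximal _ hne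
      have hmp := hm.isPrime
      by_cases hpm' : p ≤ m
      · obtain ⟨s, hs, h⟩ := (mem_kr m x).1 (hkey m hpm' hx)
        apply hs
        apply hle'
        rw [Submodule.mem_colon_singleton, smul_eq_mul, h]
        exact Ideal.zero_mem _
      · obtain ⟨y, hy, hym⟩ := Set.not_subset.1 hpm'
        apply hym
        apply hle'
        rw [Submodule.mem_colon_singleton, smul_eq_mul]
        exact Ideal.mul_mem_mul hy hx
    have h1 : (1 : C) ∈ ((p * p).colon {x} : Ideal C) := by rw [htop]; trivial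
    rw [Submodule.mem_colon_singleton, one_smul] at h1
    exact h1
  obtain ⟨f, hf, hpf⟩ := (Ideal.isIdempotentElem_iff_of_fg p (IsNoetherian.noetherian p)).1 hidem
  have hpf' : p = Ideal.span {f} := hpf
  have hfp : f ∈ p := by rw [hpf']; exact Ideal.mem_span_singleton_self f
  have hψ : ψ f = 0 := hpm hfp
  refine ⟨1 - f, hf.one_sub, by rw [map_sub, map_one, hψ, sub_zero], ?_⟩
  have hff : f * f = f := hf
  have e1 : (1 - (1 - f)) = f := by ring
  have hloc : IsLocalization.Away (1 - f) (C ⧸ p) := by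
    refine IsLocalization.away_of_isIdempotentElem hf.one_sub ?_ Ideal.Quotient.mk_surjective
    rw [e1, ← hpf']
    exact Ideal.mk_ker
  have hdom : IsDomain (C ⧸ p) := Ideal.Quotient.isDomain p
  exact (IsLocalization.algEquiv (Submonoid.powers (1 - f)) (Localization.Away (1 - f))
    (C ⧸ p)).toMulEquiv.isDomain (C ⧸ p)

end Pool.Agent.Q186.GU

namespace Pool.Agent.Q37.GU

open Pool.Agent.W481

theorem p5 (h4 : S_P4) : S_P5 := by
  intro C _ _ _ ψ₀
  have : IsNoetherianRing C := Algebra.FiniteType.isNoetherianRing ℂ C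
  exact Pool.Agent.Q186.GU.p5_core C (fun q _ => h4 C q) ψ₀.hom.toRingHom

end Pool.Agent.Q37.GU
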